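import Pool.Agent.Helper1.C0.Coding
import Pool.Agent.Helper1.C0.Lang
import Pool.Agent.Helper1.C0.SBConn

/-!
# Homeomorphism of topological `n`-manifolds is classifiable by countable structures, for all `n`

Q1 of MP_7d75c8_lc asks this for connected topological `n`-manifolds, `n ≥ 1`. Here it is shown for all
`n`, for connected manifolds and for all manifolds, with one countable first-order language for all
dimensions.

The structure of a manifold records, for finitely many small perturbations of the charts with rational
data, how they overlap and how they are close to each other. A homeomorphism is recovered by a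
back and forth argument in which partial homeomorphisms are extended over one more chart at a time.
The step that needs an idea in the class of homeomorphisms is the local extension theorem (Chernavskii,
Edwards and Kirby: an open embedding of a neighbourhood of a compact set which is uniformly close to the
inclusion agrees on the compact set with a homeomorphism which is close to the identity and is the
identity outside a given neighbourhood), relative and in families. It is proved in
`Pool/Agent/Helper1/LE` and `Pool/Agent/Helper90/LE`, for all dimensions, without the torus trick and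
without engulfing. The rest of the argument follows the library's proof of the smooth case
(`Pool/Graph/R_seed8/Y570/CR`).
-/

set_option autoImplicit false

open Set Filter Topology

namespace Pool.Agent.Results.MP_7d75c8_lc.HomeoClassifiable

open Pool.Agent.Helper1.C0

/-- The space of codes of topological `n`-manifolds: a code is a sequence of open subsets `V i i` of
`ℝⁿ` together with gluing homeomorphisms `φ i j` from the open subset `V i j` of `V i i` onto the open
subset `V j i` of `V j j`, satisfying the cocycle conditions and the Hausdorff condition. -/
def MCode (n : ℕ) : Type := Code (EuclideanSpace ℝ (Fin n))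

/-- The coded manifold: it is glued from the open sets `V i i` by the maps `φ i j`. -/
abbrev Coded {n : ℕ} (c : MCode n) : Type := Code.Pts (E := EuclideanSpace ℝ (Fin n)) c

/-- The codes of connected manifolds. -/
def ConnCode (n : ℕ) : Type := {c : MCode n // ConnectedSpace (Coded c)}

/-- The Borel structure of the space of codes: it is generated by the conditions `S ⊆ V i j`, for `S`
compact, and `φ i j x ∈ B`, for `x` a point and `B` a Borel set. -/
noncomputable instance codeBorel (n : ℕ) : MeasurableSpace (MCode n) := measC (E := EuclideanSpace ℝ (Fin n))

/-- The Borel structure of the space of codes of connected manifolds. -/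
noncomputable instance connBorel (n : ℕ) : MeasurableSpace (ConnCode n) :=
  MeasurableSpace.comap Subtype.val (codeBorel n)

/-- The coded manifolds are homeomorphic. -/
def Homeomorphic {n : ℕ} (c c' : MCode n) : Prop := Nonempty (Coded c ≃ₜ Coded c')

/-- The map of the open set `V i i` of `ℝⁿ` into the coded space. -/
noncomputable def incl {n : ℕ} (c : MCode n) (i : ℕ) (x : Code.V c i i) : Coded c := Code.mk' c i x

/-- The coded space is a Hausdorff second countable topological `n`-manifold, glued from the open sets
`V i i` of `ℝⁿ` by the maps `φ i j`: the open sets `V i i` are openly embedded in it, they cover it, and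
points `x` of `V i i` and `y` of `V j j` have the same image iff `x ∈ V i j` and `φ i j x = y`. -/
def GluesToManifold {n : ℕ} (c : MCode n) : Prop :=
  T2Space (Coded c) ∧ SecondCountableTopology (Coded c) ∧
    (∀ i, IsOpenEmbedding (incl c i)) ∧ (⋃ i, range (incl c i)) = univ ∧
    ∀ (i j : ℕ) (x : Code.V c i i) (y : Code.V c j j),
      incl c i x = incl c j y ↔ (x : EuclideanSpace ℝ (Fin n)) ∈ Code.V c i j ∧ Code.φ c i j x = y

/-- The topological manifold `N` is homeomorphic to the one coded by `c`. -/
def CodedBy {n : ℕ} (N : Type) [TopologicalSpace N] (c : MCode n) : Prop :=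
  Nonempty (N ≃ₜ Coded c)

theorem incl_openEmbedding {n : ℕ} (c : MCode n) (i : ℕ) : IsOpenEmbedding (incl c i) := by
  refine IsOpenEmbedding.of_continuous_injective_isOpenMap (Code.continuous_mk' c i) ?_ ?_
  · intro x y hxy
    have h : cls (E := EuclideanSpace ℝ (Fin n)) c i x = cls c i y := congrArg Code.Pts.val hxy
    exact Subtype.ext (cls_inj x.2 y.2 h)
  · intro A hA
    have h1 : IsOpen (Subtype.val '' A : Set (EuclideanSpace ℝ (Fin n))) :=
      (Code.isOpen c i i).isOpenMap_subtype_val A hA
    have h2 := Code.isOpen_chart c i h1
    convert h2 using 1
    ext z
    constructor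
    · rintro ⟨x, hx, rfl⟩
      exact ⟨x, ⟨x, hx, rfl⟩, mem_cls_self x.2⟩
    · rintro ⟨y, ⟨x, hx, rfl⟩, hy⟩
      refine ⟨x, hx, ?_⟩
      have h3 := (mem_iff z.mem _).1 hy
      apply Code.Pts.ext
      exact h3.2.symm

theorem incl_cover {n : ℕ} (c : MCode n) : (⋃ i, range (incl c i)) = univ := by
  rw [eq_univ_iff_forall]
  intro z
  obtain ⟨i, y, hy⟩ := Code.exists_idx c z
  have h3 := (mem_iff z.mem _).1 hy
  refine mem_iUnion.2 ⟨i, ⟨y, h3.1⟩, ?_⟩
  apply Code.Pts.ext
  exact h3.2.symm

/-- There is a countable first-order language `L` such that for every dimension `n`: the space of codes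
of topological `n`-manifolds and the space of codes of connected topological `n`-manifolds are standard
Borel spaces; every code glues to a Hausdorff second countable topological `n`-manifold; every
(connected) Hausdorff second countable topological `n`-manifold is homeomorphic to one with a code (of a
connected manifold); and the relation of homeomorphism, both on the space of codes of all topological
`n`-manifolds and on the space of codes of connected ones, is classified by the countable
`L`-structures, in particular it is classifiable by countable structures. -/
theorem result :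
    ∃ L : FirstOrder.Language.{0, 0}, Countable L.Symbols ∧
      ∀ n : ℕ,
        StandardBorelSpace (MCode n) ∧ StandardBorelSpace (ConnCode n) ∧
        (∀ c : MCode n, GluesToManifold c) ∧
        (∀ (N : Type) [TopologicalSpace N] [ChartedSpace (EuclideanSpace ℝ (Fin n)) N] [T2Space N]
          [SecondCountableTopology N], (∃ c : MCode n, CodedBy N c) ∧
            (ConnectedSpace N → ∃ c : ConnCode n, CodedBy N c.1)) ∧
        ClassifiedBy L (Homeomorphic : MCode n → MCode n → Prop) ∧
        ClassifiedBy L (fun c c' : ConnCode n => Homeomorphic c.1 c'.1) ∧
        ClassifiableByCountableStructures (Homeomorphic : MCode n → MCode n → Prop) ∧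
        ClassifiableByCountableStructures
          (fun c c' : ConnCode n => Homeomorphic c.1 c'.1) := by
  refine ⟨LL, inferInstance, fun n => ?_⟩
  have h1 : ClassifiedBy LL (Homeomorphic : MCode n → MCode n → Prop) :=
    classified_all (E := EuclideanSpace ℝ (Fin n))
  have h2 : ClassifiedBy LL (fun c c' : ConnCode n => Homeomorphic c.1 c'.1) :=
    h1.subtype (fun c => ConnectedSpace (Coded c))
  refine ⟨Pool.Agent.Helper1.C0.SB.sb_code (E := EuclideanSpace ℝ (Fin n)),
    Pool.Agent.Helper1.C0.SB.sb_conn (E := EuclideanSpace ℝ (Fin n)), fun c => ?_, ?_, h1, h2,
    ⟨LL, inferInstance, h1⟩, ⟨LL, inferInstance, h2⟩⟩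
  · refine ⟨?_, ?_, incl_openEmbedding c, incl_cover c, ?_⟩
    · exact (inferInstance : T2Space (Code.Pts (E := EuclideanSpace ℝ (Fin n)) c))
    · exact (inferInstance : SecondCountableTopology
        (Code.Pts (E := EuclideanSpace ℝ (Fin n)) c))
    · intro i j x y
      rw [← cls_eq_iff (E := EuclideanSpace ℝ (Fin n)) y.2]
      exact ⟨fun h => congrArg Code.Pts.val h, fun h => Code.Pts.ext h⟩
  · intro N _ _ _ _
    obtain ⟨c, ⟨f⟩⟩ := exists_code (E := EuclideanSpace ℝ (Fin n)) (N := N)
    refine ⟨⟨c, ⟨f⟩⟩, fun hconn => ?_⟩
    have hc : ConnectedSpace c.Pts := f.surjective.connectedSpace f.continuous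
    exact ⟨⟨c, hc⟩, ⟨f⟩⟩

end Pool.Agent.Results.MP_7d75c8_lc.HomeoClassifiable
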